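import Pool.Agent.ASE.Stmts2

/-!
# Squad ASE, row IBV: integral vectors
-/

open scoped BigOperators

set_option autoImplicit false

noncomputable section

namespace Pool.Agent.PP.SE.H76

open Pool.Agent.Helper51_AWC Pool.Agent.Helper79_WRA Pool.Agent.PP Pool.Agent.PP.KF
open Pool.Agent.PP.K9 Pool.Agent.PP.K9.H97 Pool.Agent.PP.H75 Pool.Agent.PP.T3 Pool.Agent.PP.SO
open Pool.Agent.PP.SD

attribute [local instance] Ideal.Quotient.field

section gram

variable {V₀ X : Type} [CommGroup V₀] [DecidableEq V₀]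

theorem gram_calc (K : Finset V₀) (SS : Finset (MulAut V₀))
    (hst : ∀ τ ∈ SS, ∀ x ∈ K, τ x ∈ K) (FI : Finset X) (v : X → V₀ → ℂ) (β β' : X → ℤ)
    (p p' : V₀ → ℂ) (l : ℕ) (hp : p 1 = 1)
    (hβ : ∀ χ ∈ FI, (l : ℂ) * β χ = ∑ y ∈ K.erase 1, v χ y * (starRingEnd ℂ (p y) - 1))
    (hβ' : ∀ χ ∈ FI, (l : ℂ) * β' χ = ∑ y ∈ K.erase 1, v χ y * (starRingEnd ℂ (p' y) - 1))
    (hv : ∀ x ∈ K.erase 1, ∀ y ∈ K.erase 1, ∑ χ ∈ FI, v χ x * starRingEnd ℂ (v χ y) =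
      l * ∑ τ ∈ SS, if τ x = y then (1 : ℂ) else 0) :
    (l : ℂ) ^ 2 * ∑ χ ∈ FI, (β χ : ℂ) * β' χ =
      l * ∑ τ ∈ SS, ∑ x ∈ K, (starRingEnd ℂ (p x) - 1) * (p' (τ x) - 1) := by
  have h1 : ∀ χ ∈ FI, (l : ℂ) ^ 2 * ((β χ : ℂ) * β' χ) =
      ∑ x ∈ K.erase 1, ∑ y ∈ K.erase 1, (starRingEnd ℂ (p x) - 1) * (p' y - 1) *
        (v χ x * starRingEnd ℂ (v χ y)) := by
    intro χ hχ
    have e1 : (l : ℂ) * β' χ = ∑ y ∈ K.erase 1, starRingEnd ℂ (v χ y) * (p' y - 1) := by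
      have e2 := congrArg (starRingEnd ℂ) (hβ' χ hχ)
      rw [map_mul, map_natCast, map_intCast, map_sum] at e2
      rw [e2]
      exact Finset.sum_congr rfl fun y _ => by
        rw [map_mul, map_sub, map_one, Complex.conj_conj]
    have e3 : (l : ℂ) ^ 2 * ((β χ : ℂ) * β' χ) = (l * β χ) * (l * β' χ) := by ring
    rw [e3, hβ χ hχ, e1, Finset.sum_mul_sum]
    exact Finset.sum_congr rfl fun x _ => Finset.sum_congr rfl fun y _ => by ring
  rw [Finset.mul_sum, Finset.sum_congr rfl h1, Finset.sum_comm]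
  have h2 : ∀ x ∈ K.erase 1, ∑ χ ∈ FI, ∑ y ∈ K.erase 1,
      (starRingEnd ℂ (p x) - 1) * (p' y - 1) * (v χ x * starRingEnd ℂ (v χ y)) =
      l * ∑ τ ∈ SS, (starRingEnd ℂ (p x) - 1) * (p' (τ x) - 1) := by
    intro x hx
    rw [Finset.sum_comm]
    have h3 : ∀ y ∈ K.erase 1, ∑ χ ∈ FI,
        (starRingEnd ℂ (p x) - 1) * (p' y - 1) * (v χ x * starRingEnd ℂ (v χ y)) =
        l * ∑ τ ∈ SS, if τ x = y then (starRingEnd ℂ (p x) - 1) * (p' y - 1) else 0 := by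
      intro y hy
      rw [← Finset.mul_sum, hv x hx y hy, Finset.mul_sum, Finset.mul_sum, Finset.mul_sum]
      refine Finset.sum_congr rfl fun τ _ => ?_
      split_ifs <;> ring
    rw [Finset.sum_congr rfl h3, ← Finset.mul_sum, Finset.sum_comm]
    congr 1
    refine Finset.sum_congr rfl fun τ hτ => ?_
    have h4 : τ x ∈ K.erase 1 := by
      rw [Finset.mem_erase] at hx ⊢
      exact ⟨fun h => hx.1 ((map_eq_one_iff τ τ.injective).1 h), hst τ hτ x hx.2⟩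
    rw [Finset.sum_ite_eq (K.erase 1) (τ x), if_pos h4]
  rw [Finset.sum_congr rfl h2, ← Finset.mul_sum, Finset.sum_comm]
  congr 1
  refine Finset.sum_congr rfl fun τ _ => ?_
  by_cases h1K : (1 : V₀) ∈ K
  · rw [← Finset.sum_erase_add _ _ h1K, hp, map_one, sub_self, zero_mul, add_zero]
  · rw [Finset.erase_eq_of_notMem h1K]

end gram

section lin

variable {V₀ : Type} [CommGroup V₀] [Finite V₀]

omit [Finite V₀] in
theorem lin_pow {s : V₀ → ℂ} (hs : s ∈ lin V₀) (v : V₀) (n : ℕ) : s (v ^ n) = s v ^ n := by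
  induction n with
  | zero => rw [pow_zero, pow_zero]; exact hs.1
  | succ n ih => rw [pow_succ, pow_succ, hs.2, ih]

theorem lin_norm {s : V₀ → ℂ} (hs : s ∈ lin V₀) (v : V₀) : s v * starRingEnd ℂ (s v) = 1 := by
  have h1 : s v ^ Nat.card V₀ = 1 := by
    rw [← lin_pow hs, pow_card_eq_one', hs.1]
  have h2 : ‖s v‖ = 1 := Complex.norm_eq_one_of_pow_eq_one h1 Nat.card_pos.ne'
  rw [Complex.mul_conj, Complex.normSq_eq_norm_sq, h2]
  norm_num

theorem lin_ne {s : V₀ → ℂ} (hs : s ∈ lin V₀) (v : V₀) : s v ≠ 0 := by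
  intro h
  have := lin_norm hs v
  rw [h, zero_mul] at this
  exact zero_ne_one this

omit [Finite V₀] in
theorem lk_div {W : Subgroup V₀} {s s' : V₀ → ℂ} (hs : s ∈ lk W) (hs' : s' ∈ lk W) :
    (fun v => s' v * starRingEnd ℂ (s v)) ∈ lk W := by
  refine ⟨⟨?_, fun v w => ?_⟩, fun w hw => ?_⟩
  · show s' 1 * starRingEnd ℂ (s 1) = 1
    rw [hs.1.1, hs'.1.1, map_one, mul_one]
  · show s' (v * w) * starRingEnd ℂ (s (v * w)) = _
    rw [hs.1.2, hs'.1.2, map_mul]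
    ring
  · show s' w * starRingEnd ℂ (s w) = 1
    rw [hs.2 w hw, hs'.2 w hw, map_one, mul_one]

omit [Finite V₀] in
theorem one_lk (W : Subgroup V₀) : (fun _ => (1 : ℂ)) ∈ lk W :=
  ⟨⟨rfl, fun _ _ => (mul_one 1).symm⟩, fun _ _ => rfl⟩

end lin

section fin

variable {V₀ G : Type} [CommGroup V₀] [Group G] [Finite G] {M : Ideal (integralClosure ℤ ℂ)}
  [M.IsMaximal]

omit [M.IsMaximal] in
theorem ch_fin (B : Bk (FF M) V₀ G) (A : Subgroup V₀) : (Ch B A).Finite := by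
  have := Fintype.ofFinite (B.C A)
  have h1 : (Irr (B.C A)).Finite := irr_finite'
  refine Set.Finite.of_injOn (f := fun χ : G → ℂ => fun t : B.C A => χ t) (t := Irr (B.C A)) ?_ ?_ h1
  · intro χ hχ
    exact hχ.2.1
  · intro χ hχ ψ hψ h
    funext g
    by_cases hg : g ∈ B.C A
    · exact congrFun h ⟨g, hg⟩
    · rw [hχ.1 g hg, hψ.1 g hg]

end fin

section stab

variable {V₀ : Type} [CommGroup V₀]

theorem kW_stable (E₀ : Subgroup (MulAut V₀)) (W : Subgroup V₀) {τ : MulAut V₀}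
    (hτ : τ ∈ St E₀ W) {y : V₀} (hy : y ∈ kW E₀ W) : τ y ∈ kW E₀ W := by
  have hgen : ∀ σ ∈ St E₀ W, ∀ v, σ v * v⁻¹ ∈ kW E₀ W := fun σ hσ v =>
    Subgroup.subset_closure ⟨σ, hσ, v, rfl⟩
  have h : kW E₀ W ≤ (kW E₀ W).comap (τ : V₀ ≃* V₀).toMonoidHom := by
    refine (Subgroup.closure_le _).2 ?_
    rintro _ ⟨σ, hσ, v, rfl⟩
    show τ (σ v * v⁻¹) ∈ kW E₀ W
    have e1 : τ (σ v * v⁻¹) = ((τ * σ) v * v⁻¹) * (τ v * v⁻¹)⁻¹ := by
      rw [map_mul, map_inv, MulAut.mul_apply]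
      rw [mul_inv, inv_inv]
      rw [mul_mul_mul_comm, inv_mul_cancel, mul_one]
    rw [e1]
    exact mul_mem (hgen _ (mul_mem hτ hσ) v) (inv_mem (hgen τ hτ v))
  exact h hy

end stab

section main

theorem ibv (hGEA : GeaStmt) (hGEC : GecStmt) (hVXM : VxmStmt) (hVXO : VxoStmt) : IbvStmt := by
  classical
  intro ℓ _ M _ hℓM hℓ2 V₀ G _ _ _ _ E₀ hFq B hB W hW ν hν
  have hℓ : ℓ.Prime := Fact.out
  have hfV : Fintype V₀ := Fintype.ofFinite V₀
  obtain ⟨⟨-, -, -, a4, a5, -, -, -⟩, a8, -, -, -, -, -, -, -, -⟩ := hGEA ℓ V₀ E₀ hFq W hW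
  obtain ⟨-, -, g3, -, g5, g6, g7, -, g9, -, g11, g12, -, -⟩ := hGEC ℓ V₀ E₀ hFq W hW
  obtain ⟨-, -, o3, -⟩ := hVXO ℓ M hℓM hℓ2 V₀ G E₀ hFq B hB W hW
  have hv := hVXM ℓ M hℓM hℓ2 V₀ G E₀ hFq B hB W hW
  have hℓ0 : (ℓ : ℂ) ≠ 0 := Nat.cast_ne_zero.2 hℓ.pos.ne'
  -- the finite sets
  obtain ⟨K, hK⟩ : ∃ K : Finset V₀, ∀ x, x ∈ K ↔ x ∈ kW E₀ W :=
    ⟨(kW E₀ W : Set V₀).toFinset, fun x => by rw [Set.mem_toFinset]; exact Iff.rfl⟩
  have hKset : (kW E₀ W : Set V₀) = (K : Set V₀) := by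
    ext x
    exact (hK x).symm
  have hKc : K.card = ℓ := by
    rw [← a4, ← SetLike.coe_sort_coe, Nat.card_coe_set_eq, hKset, Set.ncard_coe_finset]
  have hKs : ∀ f : V₀ → ℂ, ∑ᶠ y ∈ (kW E₀ W : Set V₀), f y = ∑ y ∈ K, f y := by
    intro f
    rw [hKset, finsum_mem_coe_finset]
  obtain ⟨SS, hSS⟩ : ∃ SS : Finset (MulAut V₀), ∀ τ, τ ∈ SS ↔ τ ∈ St E₀ W :=
    ⟨(Set.toFinite (St E₀ W : Set (MulAut V₀))).toFinset, fun τ => by
      rw [Set.Finite.mem_toFinset]; exact Iff.rfl⟩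
  have hSc : SS.card = nS E₀ W := by
    rw [nS, ← SetLike.coe_sort_coe, Nat.card_coe_set_eq, ← Set.ncard_coe_finset]
    congr 1
    ext x
    exact hSS x
  obtain ⟨LW, hLW⟩ : ∃ LW : Finset (V₀ → ℂ), ∀ s, s ∈ LW ↔ s ∈ lk W :=
    ⟨g3.toFinset, fun s => g3.mem_toFinset⟩
  have hLset : (lk W : Set (V₀ → ℂ)) = (LW : Set (V₀ → ℂ)) := by
    ext x
    exact (hLW x).symm
  have hIv : (Iv B W ν).Finite := (ch_fin B W).subset fun χ hχ => hχ.1
  obtain ⟨FI, hFI⟩ : ∃ FI : Finset (G → ℂ), ∀ χ, χ ∈ FI ↔ χ ∈ Iv B W ν :=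
    ⟨hIv.toFinset, fun s => hIv.mem_toFinset⟩
  have hFset : (Iv B W ν : Set (G → ℂ)) = (FI : Set (G → ℂ)) := by
    ext x
    exact (hFI x).symm
  have h1K : (1 : V₀) ∈ K := (hK 1).2 (one_mem _)
  have hstab : ∀ τ ∈ SS, ∀ x ∈ K, τ x ∈ K := fun τ hτ x hx =>
    (hK _).2 (kW_stable E₀ W ((hSS τ).1 hτ) ((hK x).1 hx))
  -- orthogonality on `k`
  have horth : ∀ s ∈ lk W, ∀ s' ∈ lk W, ∑ y ∈ K, s' y * starRingEnd ℂ (s y) =
      if s' = s then (ℓ : ℂ) else 0 := by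
    intro s hs s' hs'
    split_ifs with h
    · subst h
      rw [Finset.sum_congr rfl fun y _ => lin_norm hs.1 y, Finset.sum_const, hKc, nsmul_eq_mul,
        mul_one]
    · have h1 := g12 _ (lk_div hs hs') (fun h2 => h (funext fun v => by
        have h3 : s' v * starRingEnd ℂ (s v) = 1 := congrFun h2 v
        have h4 := lin_norm hs.1 v
        have h5 : starRingEnd ℂ (s v) ≠ 0 := fun h6 => by
          rw [h6, mul_zero] at h4
          exact zero_ne_one h4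
        exact mul_right_cancel₀ h5 (h3.trans h4.symm)))
      rw [hKs] at h1
      exact h1
  have honeW : (fun _ => (1 : ℂ)) ∈ lk W := one_lk W
  -- the multiplicities
  have hmex : ∀ χ : G → ℂ, ∃ m : (V₀ → ℂ) → ℕ, χ ∈ Iv B W ν →
      (∀ x, vx B χ x = ∑ᶠ μ ∈ lin V₀, (m μ : ℂ) * μ x) ∧
      (∀ τ ∈ St E₀ W, ∀ μ ∈ lin V₀, m (fun v => μ (τ v)) = m μ) ∧
      ∀ μ ∈ lin V₀, m μ ≠ 0 → ∀ w ∈ W, μ w = nu B χ w := by
    intro χ
    by_cases hχ : χ ∈ Iv B W ν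
    · obtain ⟨m, hm⟩ := (hv χ hχ.1).1
      exact ⟨m, fun _ => hm⟩
    · exact ⟨fun _ => 0, fun h => absurd h hχ⟩
  choose m hm using hmex
  obtain ⟨b, hb⟩ : ∃ b : (G → ℂ) → (V₀ → ℂ) → ℤ, ∀ χ s, b χ s =
      (m χ (fun v => ν v * s v) : ℤ) - m χ ν := ⟨_, fun _ _ => rfl⟩
  have hb1 : ∀ χ, b χ (fun _ => 1) = 0 := by
    intro χ
    rw [hb]
    have : (fun v => ν v * (1 : ℂ)) = ν := funext fun v => mul_one _
    rw [this, sub_self]
  -- the expansion
  have hexp : ∀ χ ∈ Iv B W ν, ∀ y ∈ kW E₀ W, vx B χ y =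
      ∑ s ∈ LW, (m χ (fun v => ν v * s v) : ℂ) * s y := by
    intro χ hχ y hy
    obtain ⟨h1, -, h3⟩ := hm χ hχ
    rw [h1 y]
    have hinj : Set.InjOn (fun s : V₀ → ℂ => fun v => ν v * s v) (lk W) := by
      intro s _ s' _ h
      funext v
      exact mul_left_cancel₀ (lin_ne hν.1 v) (congrFun h v)
    have h4 : ∑ᶠ μ ∈ lin V₀, (m χ μ : ℂ) * μ y =
        ∑ᶠ μ ∈ (fun s : V₀ → ℂ => fun v => ν v * s v) '' (lk W), (m χ μ : ℂ) * μ y := by
      refine finsum_mem_inter_support_eq _ _ _ ?_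
      ext μ
      constructor
      · rintro ⟨hμ, hs⟩
        refine ⟨?_, hs⟩
        have hmμ : m χ μ ≠ 0 := by
          intro h
          apply hs
          show (m χ μ : ℂ) * μ y = 0
          rw [h, Nat.cast_zero, zero_mul]
        refine ⟨fun v => μ (v * (pr ℓ E₀ W v)⁻¹), (g5 μ hμ).2, funext fun v => ?_⟩
        have e1 : μ (pr ℓ E₀ W v) = ν (pr ℓ E₀ W v) := by
          rw [h3 μ hμ hmμ _ (a8 v).1, hχ.2 _ (a8 v).1]
        show ν v * μ (v * (pr ℓ E₀ W v)⁻¹) = μ v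
        rw [← (g7 ν hν v).1, ← e1, ← hμ.2]
        congr 1
        rw [mul_comm, mul_assoc, inv_mul_cancel, mul_one]
      · rintro ⟨⟨s, hs, rfl⟩, h⟩
        exact ⟨g6 ν hν s hs, h⟩
    rw [h4, finsum_mem_image hinj, hLset, finsum_mem_coe_finset]
    refine Finset.sum_congr rfl fun s _ => ?_
    show (m χ (fun v => ν v * s v) : ℂ) * (ν y * s y) = _
    rw [hν.2 y hy, one_mul]
  have hsum0 : ∀ y ∈ kW E₀ W, y ≠ 1 → ∑ s ∈ LW, s y = 0 := by
    intro y hy hy1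
    have := g11 y hy hy1
    rwa [hLset, finsum_mem_coe_finset] at this
  have hF : ∀ χ ∈ Iv B W ν, ∀ y ∈ kW E₀ W, y ≠ 1 → vx B χ y = ∑ s ∈ LW, (b χ s : ℂ) * s y := by
    intro χ hχ y hy hy1
    have h1 : ∑ s ∈ LW, (b χ s : ℂ) * s y = ∑ s ∈ LW, (m χ (fun v => ν v * s v) : ℂ) * s y -
        (m χ ν : ℂ) * ∑ s ∈ LW, s y := by
      rw [Finset.mul_sum, ← Finset.sum_sub_distrib]
      refine Finset.sum_congr rfl fun s _ => ?_
      rw [hb]
      push_cast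
      ring
    rw [h1, hsum0 y hy hy1, mul_zero, sub_zero]
    exact hexp χ hχ y hy
  have hβ : ∀ s ∈ lk W, ∀ χ ∈ FI, (ℓ : ℂ) * b χ s =
      ∑ y ∈ K.erase 1, vx B χ y * (starRingEnd ℂ (s y) - 1) := by
    intro s hs χ hχ
    have hχ' := (hFI χ).1 hχ
    have h1 : ∑ y ∈ K.erase 1, vx B χ y * (starRingEnd ℂ (s y) - 1) =
        ∑ y ∈ K, (∑ s' ∈ LW, (b χ s' : ℂ) * s' y) * (starRingEnd ℂ (s y) - 1) := by
      rw [← Finset.sum_erase_add K _ h1K, hs.1.1, map_one, sub_self, mul_zero, add_zero]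
      refine Finset.sum_congr rfl fun y hy => ?_
      rw [Finset.mem_erase] at hy
      rw [hF χ hχ' y ((hK y).1 hy.2) hy.1]
    have h2 : ∀ y ∈ K, (∑ s' ∈ LW, (b χ s' : ℂ) * s' y) * (starRingEnd ℂ (s y) - 1) =
        ∑ s' ∈ LW, (b χ s' : ℂ) * (s' y * starRingEnd ℂ (s y) -
          s' y * starRingEnd ℂ ((fun _ : V₀ => (1 : ℂ)) y)) := by
      intro y _
      rw [Finset.sum_mul]
      refine Finset.sum_congr rfl fun s' _ => ?_
      rw [map_one]
      ring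
    rw [h1, Finset.sum_congr rfl h2, Finset.sum_comm]
    have h3 : ∀ s' ∈ LW, ∑ y ∈ K, (b χ s' : ℂ) * (s' y * starRingEnd ℂ (s y) -
          s' y * starRingEnd ℂ ((fun _ : V₀ => (1 : ℂ)) y)) =
        (if s' = s then (ℓ : ℂ) * b χ s else 0) := by
      intro s' hs'
      rw [← Finset.mul_sum, Finset.sum_sub_distrib, horth s hs s' ((hLW s').1 hs'),
        horth _ honeW s' ((hLW s').1 hs')]
      by_cases e1 : s' = fun _ => 1
      · by_cases e2 : s' = s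
        · rw [if_pos e2, if_pos e1, if_pos e2, sub_self, mul_zero, ← e2, e1, hb1, Int.cast_zero,
            mul_zero]
        · rw [if_neg e2, if_pos e1, if_neg e2, e1, hb1, Int.cast_zero, zero_mul]
      · by_cases e2 : s' = s
        · rw [if_pos e2, if_neg e1, if_pos e2, sub_zero, mul_comm, e2]
        · rw [if_neg e2, if_neg e1, if_neg e2, sub_zero, mul_zero]
    rw [Finset.sum_congr rfl h3, Finset.sum_ite_eq' LW s, if_pos ((hLW s).2 hs)]
  have hvv : ∀ x ∈ K.erase 1, ∀ y ∈ K.erase 1, ∑ χ ∈ FI, vx B χ x * starRingEnd ℂ (vx B χ y) =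
      ℓ * ∑ τ ∈ SS, if τ x = y then (1 : ℂ) else 0 := by
    intro x hx y hy
    rw [Finset.mem_erase] at hx hy
    have h1 := o3 ν hν x ((hK x).1 hx.2) hx.1 y ((hK y).1 hy.2) hy.1
    rw [hFset, finsum_mem_coe_finset] at h1
    rw [h1, Finset.sum_boole]
    congr 2
    rw [← Set.ncard_coe_finset]
    congr 1
    ext τ
    rw [Finset.mem_coe, Finset.mem_filter, hSS]
    exact Iff.rfl
  -- the inner sums
  have hin : ∀ s ∈ lk W, s ≠ (fun _ => 1) → ∀ s' ∈ lk W, s' ≠ (fun _ => 1) → ∀ τ ∈ SS,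
      ∑ x ∈ K, (starRingEnd ℂ (s x) - 1) * (s' (τ x) - 1) =
        (ℓ : ℂ) * ((if (fun v => s' (τ v)) = s then (1 : ℂ) else 0) + 1) := by
    intro s hs hs1 s' hs' hs1' τ hτ
    have hτ' := (hSS τ).1 hτ
    obtain ⟨h1, h2⟩ := g9 s' hs' τ hτ'
    have e1 : ∑ x ∈ K, (starRingEnd ℂ (s x) - 1) * (s' (τ x) - 1) =
        ∑ x ∈ K, s' (τ x) * starRingEnd ℂ (s x) - ∑ x ∈ K, s' (τ x) -
          ∑ x ∈ K, (fun _ : V₀ => (1 : ℂ)) x * starRingEnd ℂ (s x) + ∑ x ∈ K, (1 : ℂ) := by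
      rw [← Finset.sum_sub_distrib, ← Finset.sum_sub_distrib, ← Finset.sum_add_distrib]
      exact Finset.sum_congr rfl fun x _ => by ring
    have e2 := horth s hs _ h1
    have e3 := horth s hs _ honeW
    rw [if_neg (fun h => hs1 h.symm)] at e3
    have e4 := g12 _ h1 (h2 hs1').1
    rw [hKs] at e4
    rw [e1, e3, e4, e2, Finset.sum_const, hKc, nsmul_eq_mul]
    split_ifs <;> ring
  have hgram : ∀ s ∈ lk W, s ≠ (fun _ => 1) → ∀ s' ∈ lk W, s' ≠ (fun _ => 1) →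
      ∑ᶠ χ ∈ Iv B W ν, b χ s * b χ s' =
        ((SS.filter (fun τ => (fun v => s' (τ v)) = s)).card : ℤ) + nS E₀ W := by
    intro s hs hs1 s' hs' hs1'
    have h1 := gram_calc K SS hstab FI (vx B) (fun χ => b χ s) (fun χ => b χ s') s s' ℓ hs.1.1
      (hβ s hs) (hβ s' hs') hvv
    rw [Finset.sum_congr rfl (hin s hs hs1 s' hs' hs1'), ← Finset.mul_sum,
      Finset.sum_add_distrib, Finset.sum_boole, Finset.sum_const, nsmul_eq_mul, mul_one, hSc,
      ← mul_assoc, ← sq] at h1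
    have h2 := mul_left_cancel₀ (pow_ne_zero 2 hℓ0) h1
    rw [hFset, finsum_mem_coe_finset]
    have h3 : (((∑ χ ∈ FI, b χ s * b χ s' : ℤ)) : ℂ) =
        (((SS.filter (fun τ => (fun v => s' (τ v)) = s)).card : ℤ) + nS E₀ W : ℤ) := by
      push_cast
      exact h2
    exact_mod_cast h3
  refine ⟨b, ?_, ?_⟩
  · intro χ hχ
    have hLe : {s | s ∈ lk W ∧ s ≠ fun _ => 1} =
        ((LW.erase (fun _ => 1) : Finset (V₀ → ℂ)) : Set (V₀ → ℂ)) := by
      ext s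
      rw [Finset.mem_coe, Finset.mem_erase, hLW]
      exact and_comm
    have hA : ∀ y ∈ kW E₀ W, y ≠ 1 → vx B χ y =
        ∑ᶠ s ∈ {s | s ∈ lk W ∧ s ≠ fun _ => 1}, (b χ s : ℂ) * s y := by
      intro y hy hy1
      rw [hF χ hχ y hy hy1, hLe, finsum_mem_coe_finset,
        ← Finset.sum_erase_add LW _ ((hLW _).2 honeW), hb1, Int.cast_zero, zero_mul, add_zero]
    refine ⟨hA, ?_, ?_⟩
    · intro s hs τ hτ
      rw [hb, hb]
      have h1 := (hm χ hχ).2.1 τ hτ (fun v => ν v * s v) (g6 ν hν s hs)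
      have h2 : (fun v => ν v * s (τ v)) = fun v => ν (τ v) * s (τ v) := by
        funext v
        rw [(g7 ν hν v).2 τ hτ]
      rw [h2, h1]
    · -- not all are zero
      have hcard : 1 < K.card := by
        rw [hKc]
        exact hℓ.one_lt
      obtain ⟨y, hy, hy1⟩ := Finset.exists_mem_ne hcard 1
      have hyk := (hK y).1 hy
      have hyW : y ∉ W := by
        intro h
        have : y ∈ W ⊓ kW E₀ W := ⟨h, hyk⟩
        rw [a5] at this
        exact hy1 (Subgroup.mem_bot.1 this)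
      have h1 := ((hv χ hχ.1).2.2 y hyW).2.2.2
      by_contra hcon
      push Not at hcon
      apply h1
      rw [hF χ hχ y hyk hy1]
      refine Finset.sum_eq_zero fun s hs => ?_
      by_cases hs1 : s = fun _ => 1
      · rw [hs1, hb1, Int.cast_zero, zero_mul]
      · rw [hcon s ((hLW s).1 hs) hs1, Int.cast_zero, zero_mul]
  · intro s hs hs1 s' hs' hs1'
    have h1 := hgram s hs hs1 s' hs' hs1'
    refine ⟨fun ho => ?_, fun ho => ?_⟩
    · obtain ⟨τ₀, hτ₀, h2⟩ := ho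
      have hc : (SS.filter (fun τ => (fun v => s' (τ v)) = s)) = {τ₀⁻¹} := by
        ext τ
        rw [Finset.mem_filter, Finset.mem_singleton, hSS]
        constructor
        · rintro ⟨h3, h4⟩
          have h5 : (fun v => s ((τ₀ * τ) v)) = s := by
            rw [← h4]
            funext v
            show s' (τ ((τ₀ * τ) v)) = s' (τ v)
            rw [h4.symm] at h2
            have h6 := congrFun h2 (τ v)
            exact h6.symm
          by_contra hne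
          have h6 : τ₀ * τ ≠ 1 := fun h => hne (eq_inv_of_mul_eq_one_right h)
          exact ((g9 s hs (τ₀ * τ) (mul_mem hτ₀ h3)).2 hs1).2 h6 h5
        · rintro rfl
          refine ⟨inv_mem hτ₀, ?_⟩
          rw [h2]
          funext v
          show s (τ₀ (τ₀⁻¹ v)) = s v
          rw [← MulAut.mul_apply, mul_inv_cancel, MulAut.one_apply]
      rw [h1, hc, Finset.card_singleton]
      norm_num
    · have hc : (SS.filter (fun τ => (fun v => s' (τ v)) = s)) = ∅ := by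
        rw [Finset.filter_eq_empty_iff]
        intro τ hτ h2
        apply ho
        refine ⟨τ⁻¹, inv_mem ((hSS τ).1 hτ), ?_⟩
        rw [← h2]
        funext v
        show s' v = s' (τ (τ⁻¹ v))
        rw [← MulAut.mul_apply, mul_inv_cancel, MulAut.one_apply]
      rw [h1, hc, Finset.card_empty]
      norm_num

end main

end Pool.Agent.PP.SE.H76
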